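import Mathlib
import Pool.Agent.TH922.KC.Con6
import Pool.Agent.TH922.KC.Kol6
import Pool.Agent.TH922.KC.Prod1

set_option autoImplicit false

open MvPolynomial

namespace Pool.Agent.Z894.LX

open Pool.Agent.TH922.KC

/-- graded integral relation: `z` has degree `Q` over the ring generated by the `w j` -/
def IntRel {κ Ω X : Type*} [Field κ] [Field Ω] [Algebra κ Ω] [Fintype X] (w : X → Ω) (Q : ℕ)
    (z : Ω) : Prop :=
  ∃ M : ℕ, 0 < M ∧ ∃ g : ℕ → Ω, (∀ i < M, g i ∈ Pc κ w (Q * (M - i))) ∧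
    z ^ M = ∑ i ∈ Finset.range M, g i * z ^ i

/-- robustness of a (symmetric) relation `R` on `Fin V` -/
def RobR (n V : ℕ) (R : Fin V → Fin V → Prop) : Prop :=
  ∀ K : Finset (Fin V), K.card ≤ n → ∃ T : Finset (Fin V), Disjoint K T ∧
    n + 1 ≤ K.card + T.card ∧ ∀ U ⊂ T, U.Nonempty → ∃ x ∈ U, ∃ y ∈ T \ U, R x y

/-- a robust walk of length `m` -/
def RobW (n m : ℕ) : Prop :=
  ∃ (V : ℕ) (w : ℕ → Fin V), ∀ K : Finset (Fin V), K.card ≤ n →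
    ∃ T : Finset (Fin V), Disjoint K T ∧ n + 1 ≤ K.card + T.card ∧
      ∀ U ⊂ T, U.Nonempty → ∃ t < m, (w t ∈ U ∧ w (t + 1) ∈ T \ U) ∨ (w (t + 1) ∈ U ∧ w t ∈ T \ U)

/-- part 1: powers of ratios lie in the field (adapt `ratios` of Kol3, `J = 0`) -/
def GRatios : Prop :=
  ∀ (κ Ω : Type) [Field κ] [Field Ω] [Algebra κ Ω] [CharZero κ] [CharZero Ω]
    (s p D k0 : ℕ), p.Prime → ∀ (ω : κ), IsPrimitiveRoot ω (p ^ s) → ∀ (ι : Type)
    [Fintype ι] (S : Finset ℕ) (mu : ι → {m // m ∈ S} → ℕ) (c : ι → κ),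
    AlgebraicIndependent ℚ c →
    (∀ ν : {m // m ∈ S} → ℕ, ∑ x, ν x = D → ∃ o, mu o = ν) →
    p ^ (k0 + 1) ≤ D + 1 →
    ∀ (F : IntermediateField κ Ω) (v : {m // m ∈ S} → Ω) (j0 : {m // m ∈ S}), v j0 = 1 →
    (∀ x, v x ^ (p ^ s) ∈ F) →
    (∑ o, algebraMap κ Ω (c o) * ∏ x, v x ^ mu o x ∈ F) →
    S.card < p ^ (k0 + 1) →
    ∀ x, v x ^ (p ^ k0) ∈ F

/-- part 2: one merging step (adapt `one_merge` of Kol4, `J = 0`) -/
def GMerge : Prop :=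
  ∀ (κ Ω : Type) [Field κ] [Field Ω] [Algebra κ Ω] [CharZero κ] [CharZero Ω]
    (N s p e k0 : ℕ), p.Prime → ∀ (ω : κ), IsPrimitiveRoot ω (p ^ s) →
    ∀ (z : Ω) (yy : ℕ → Ω) (H : Finset ℕ), (∀ b ∈ H, b < N + 1) →
    ∀ (h0 : ℕ) (c : IH N 0 (p ^ s) (p ^ s * e) H → κ), AlgebraicIndependent ℚ c →
    ∀ (l : {b // b ∈ H.erase h0} → Fin (p ^ s)),
    z ^ e = ∑ o, algebraMap κ Ω (c o *
      ω ^ (∑ b, (l b : ℕ) * bd 0 (mE o) b.1)) * ∏ m ∈ Finset.range (N + 1), yy m ^ mE o m →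
    p ^ (k0 + 1) ≤ p ^ s * e + 1 →
    ∀ (F : IntermediateField κ Ω) (j0 : ℕ), j0 ∈ H → yy j0 ≠ 0 →
    (∀ m, yy m ^ (p ^ s) / yy j0 ^ (p ^ s) ∈ F) →
    z / yy j0 ^ (p ^ s) ∈ F →
    H.card < p ^ (k0 + 1) →
    ∀ m ∈ H, (yy m / yy j0) ^ (p ^ k0) ∈ F

/-- part 3: graded integrality of the coordinate of a block -/
def GInt : Prop :=
  ∀ (κ Ω : Type) [Field κ] [Field Ω] [Algebra κ Ω] (m : ℕ) (w : Fin (m + 1) → Ω)
    (Q k N e : ℕ), 0 < k → 0 < Q → 0 < e →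
    ∀ (yy : ℕ → Ω), (∀ i, yy i ^ (Q * k) ∈ Pc κ w Q) →
    ∀ (ι : Type) [Fintype ι] (α : ι → κ) (mu : ι → ℕ → ℕ),
    (∀ o, ∑ i ∈ Finset.range (N + 1), mu o i = Q * k * e) →
    ∀ z : Ω, z ^ e = ∑ o, algebraMap κ Ω (α o) * ∏ i ∈ Finset.range (N + 1), yy i ^ mu o i →
    IntRel (κ := κ) w Q z

/-- part 4: comparison of Hilbert functions (adapt `compare2` of Mer1 and `finish2` of Mer2) -/
def GFin : Prop :=
  ∀ (κ Ω : Type) [Field κ] [Field Ω] [Algebra κ Ω] (m : ℕ) (β : Type) [Fintype β]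
    (Q : ℕ) (y : Fin (m + 1) → Ω) (z : β → Ω), 0 < Q →
    (∃ j0, y j0 ≠ 0) →
    (∀ i, IntRel (κ := κ) y Q (z i)) →
    ∀ P : Ideal (MvPolynomial (Fin (m + 1) ⊕ β) κ), IsHom P →
    RingHom.ker (aeval (Sum.elim (fun j => y j ^ Q) z) :
      MvPolynomial (Fin (m + 1) ⊕ β) κ →ₐ[κ] Ω) = P →
    (∀ j0, y j0 ≠ 0 →
      ∀ j, y j / y j0 ∈ RF κ (Sum.elim (fun j => y j ^ Q) z) (Sum.inl j0)) →
    (∃ C : ℕ, ∀ t, hf P t ≤ C * (t + 1)) →
    ∃ K : ℕ, ∀ t ≥ K, (Q : ℤ) ∣ (hf P (t + 1) : ℤ) - hf P t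

/-- part 5: the statement over the residue field -/
def GKappa : Prop :=
  ∀ (κ : Type) [Field κ] [CharZero κ] (n N r s k0 p : ℕ), p.Prime → s ≠ 0 →
    ∀ ω : κ, IsPrimitiveRoot ω (p ^ (s + k0)) →
    ∀ (pe : Fin r → Prop) (a b : Fin r → Fin (N + 1)) (D : Fin r → ℕ),
      (∀ i, pe i → D i ∣ p ^ (s + k0)) →
    ∀ (S : Fin r → Finset ℕ) (h0 : Fin r → ℕ) (e : Fin r → ℕ),
      (∀ i, ¬ pe i → (∀ x ∈ S i, x < N + 1) ∧ (S i).card < p ^ (k0 + 1) ∧ 0 < e i) →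
    ∀ (c : ∀ i, IH N 0 (p ^ (s + k0)) (p ^ (s + k0) * e i) (S i) → κ),
      (∀ i, ¬ pe i → AlgebraicIndependent ℚ (c i)) →
      RobR n (N + 1) (fun x y =>
        (∃ i, pe i ∧ D i = p ^ (s + k0) ∧ ((a i = x ∧ b i = y) ∨ (a i = y ∧ b i = x))) ∨
        ∃ i, ¬ pe i ∧ (x : ℕ) ∈ S i ∧ (y : ℕ) ∈ S i) →
    ∀ P : Ideal (MvPolynomial (Fin (n + 1) ⊕ Fin r) κ), IsHom P → P.IsPrime →
      (∃ C : ℕ, ∀ t, hf P t ≤ C * (t + 1)) →
      (∀ i, pe i → X (Sum.inr i) ^ (D i) -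
        (LF (VL κ n N) (a i)) ^ (D i - 1) * LF (VL κ n N) (b i) ∈ P) →
      (∀ i, ¬ pe i → ∃ E : MvPolynomial (Fin (N + 1) ⊕ Fin r) κ, aeval (sg κ n N r) E ∈ P ∧
        ∀ (Ω : Type) [Field Ω] (θ : κ →+* Ω) (x : Fin (N + 1) ⊕ Fin r → Ω) (yy : ℕ → Ω),
          (∀ (m : ℕ) (h : m < N + 1), x (Sum.inl ⟨m, h⟩) = yy m ^ (p ^ (s + k0))) →
          (∀ m, N + 1 ≤ m → yy m = 0) →
          eval₂ θ x E = ∏ l : {b // b ∈ (S i).erase (h0 i)} → Fin (p ^ (s + k0)),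
            (x (Sum.inr i) ^ e i - ∑ o, θ (c i o * ω ^ (∑ b, (l b : ℕ) * bd 0 (mE o) b.1)) *
              ∏ m ∈ Finset.range (N + 1), yy m ^ mE o m)) →
      ∃ K : ℕ, ∀ t ≥ K, ((p ^ s : ℕ) : ℤ) ∣ (hf P (t + 1) : ℤ) - hf P t

/-- part 6: the statement over `ℂ` -/
def GMixed : Prop :=
  ∀ (n r : ℕ) (d : Fin r → ℕ),
    ∃ bad : ℕ → MvPolynomial (Σ i : Fin r, {μ : Fin (n + r + 1) →₀ ℕ // μ.degree = d i}) ℂ,
      (∀ j, bad j ≠ 0) ∧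
      ∀ f : Fin r → MvPolynomial (Fin (n + r + 1)) ℂ,
        (∀ i, f i ∈ MvPolynomial.homogeneousSubmodule (Fin (n + r + 1)) ℂ (d i)) →
        (∀ j, MvPolynomial.eval (fun x => MvPolynomial.coeff x.2.1 (f x.1)) (bad j) ≠ 0) →
        ∀ I : Ideal (MvPolynomial (Fin (n + r + 1)) ℂ),
          (∀ p ∈ I, ∀ k : ℕ, MvPolynomial.homogeneousComponent k p ∈ I) →
          I.IsPrime →
          ringKrullDim (MvPolynomial (Fin (n + r + 1)) ℂ ⧸ I) = 2 →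
          (∀ i, f i ∈ I) →
          ∀ (N p s k0 G : ℕ) (g : Fin r → Option (Fin G)) (ga gb : Fin G → Fin (N + 1))
            (S : Fin r → Finset (Fin (N + 1))), p.Prime → s ≠ 0 →
            (∀ c, p ^ (s + k0) ∣ ∏ i ∈ Finset.univ.filter (fun i => g i = some c), d i) →
            (∀ i, g i = none → 0 < d i ∧ (S i).Nonempty ∧
              p ^ ((s + k0) * ((S i).card - 1)) ∣ d i ∧ (S i).card < p ^ (k0 + 1)) →
            RobR n (N + 1) (fun x y =>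
              (∃ c, (ga c = x ∧ gb c = y) ∨ (ga c = y ∧ gb c = x)) ∨
              ∃ i, g i = none ∧ x ∈ S i ∧ y ∈ S i) →
            ∃ K : ℕ, ∀ k : ℕ, K ≤ k →
              ((p ^ s : ℕ) : ℤ) ∣
                (Module.finrank ℂ (Submodule.map (Ideal.Quotient.mkₐ ℂ I).toLinearMap
                    (MvPolynomial.homogeneousSubmodule (Fin (n + r + 1)) ℂ (k + 1))) : ℤ) -
                (Module.finrank ℂ (Submodule.map (Ideal.Quotient.mkₐ ℂ I).toLinearMap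
                    (MvPolynomial.homogeneousSubmodule (Fin (n + r + 1)) ℂ k)) : ℤ)

/-- part 7: placing the pieces along a walk -/
def GPlace : Prop :=
  ∀ (r G m V : ℕ) (a : Fin r → ℕ) (g : Fin r → Option (Fin G)) (w : ℕ → Fin V),
    m ≤ G + ∑ i ∈ Finset.univ.filter (fun i => g i = none), a i →
    ∃ (ga gb : Fin G → Fin V) (S : Fin r → Finset (Fin V)),
      (∀ i, (S i).Nonempty ∧ (S i).card ≤ a i + 1) ∧
      ∀ t < m, (∃ c, ga c = w t ∧ gb c = w (t + 1)) ∨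
        ∃ i, g i = none ∧ w t ∈ S i ∧ w (t + 1) ∈ S i

/-- part 8: weights and groups from valuations -/
def GGroup : Prop :=
  ∀ (r m s : ℕ) (v : Fin r → ℕ), 0 < s → (2 * m - 1) * s ≤ ∑ i, v i →
    ∃ (G : ℕ) (g : Fin r → Option (Fin G)),
      (∀ c, s ≤ ∑ i ∈ Finset.univ.filter (fun i => g i = some c), v i) ∧
      m ≤ G + ∑ i ∈ Finset.univ.filter (fun i => g i = none), v i / s

/-- part 9: robust walks -/
def GWalk : Prop := (∀ n, RobW n ((n + 1) ^ 2 / 4 + 1)) ∧ ∀ n, 0 < n → RobW n (16 * n)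

/-- part 10: the final theorem -/
def GFinal : Prop :=
  ∀ (n r : ℕ) (_hn : 0 < n) (d : Fin r → ℕ),
    ∃ bad : ℕ → MvPolynomial (Σ i : Fin r, {μ : Fin (n + r + 1) →₀ ℕ // μ.degree = d i}) ℂ,
      (∀ j, bad j ≠ 0) ∧
      ∀ f : Fin r → MvPolynomial (Fin (n + r + 1)) ℂ,
        (∀ i, f i ∈ MvPolynomial.homogeneousSubmodule (Fin (n + r + 1)) ℂ (d i)) →
        (∀ j, MvPolynomial.eval (fun x => MvPolynomial.coeff x.2.1 (f x.1)) (bad j) ≠ 0) →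
        ∀ I : Ideal (MvPolynomial (Fin (n + r + 1)) ℂ),
          (∀ p ∈ I, ∀ k : ℕ, MvPolynomial.homogeneousComponent k p ∈ I) →
          I.IsPrime →
          ringKrullDim (MvPolynomial (Fin (n + r + 1)) ℂ ⧸ I) = 2 →
          (∀ i, f i ∈ I) →
          ∀ m : ℕ, RobW n m →
          ∀ l Q : ℕ, 2 ≤ l → 0 < Q → (∀ p : ℕ, p.Prime → p ∣ Q → l ≤ p) →
            ((∃ (G : ℕ) (g : Fin r → Option (Fin G)) (a : Fin r → ℕ),
                (∀ c, Q ^ (1 + Nat.log l n) ∣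
                  ∏ i ∈ Finset.univ.filter (fun i => g i = some c), d i) ∧
                (∀ i, g i = none → Q ^ ((1 + Nat.log l n) * a i) ∣ d i) ∧
                m ≤ G + ∑ i ∈ Finset.univ.filter (fun i => g i = none), a i) ∨
              Q ^ ((2 * m - 1) * (1 + Nat.log l n)) ∣ ∏ i, d i) →
            ∃ K : ℕ, ∀ k : ℕ, K ≤ k →
              (Q : ℤ) ∣
                (Module.finrank ℂ (Submodule.map (Ideal.Quotient.mkₐ ℂ I).toLinearMap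
                    (MvPolynomial.homogeneousSubmodule (Fin (n + r + 1)) ℂ (k + 1))) : ℤ) -
                (Module.finrank ℂ (Submodule.map (Ideal.Quotient.mkₐ ℂ I).toLinearMap
                    (MvPolynomial.homogeneousSubmodule (Fin (n + r + 1)) ℂ k)) : ℤ)

end Pool.Agent.Z894.LX
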