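import Mathlib
import Pool.Agent.Z894.LX.Stm

set_option autoImplicit false
set_option linter.unusedSectionVars false

open MvPolynomial

namespace Pool.Agent.Z894.LX

open Pool.Agent.TH922.KC

section restr

variable {r : ℕ} {Γ : Type} [DecidableEq Γ] (g : Fin r → Γ) (q : Fin r → ℕ)
variable {k : Type} [Field k] {n N : ℕ}

lemma Bin_mem' (pe : Fin r → Prop) (hpe : ∀ i i', g i = g i' → pe i' → pe i)
    (a b : Fin r → Fin (n + 1))
    (hq : ∀ i, 0 < q i) (hab : ∀ i i', g i = g i' → a i = a i' ∧ b i = b i')
    (P : Ideal (MvPolynomial (Fin (n + 1) ⊕ Fin r) k)) (hP : ∀ i, pe i → Bin g q a b k i ∈ P) :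
    ∀ i, pe i → X (Sum.inr i) ^ (Dg g q i) -
      X (Sum.inl (a i)) ^ (Dg g q i - 1) * X (Sum.inl (b i)) ∈ P := by
  have hDpos : ∀ i, 0 < Dg g q i := fun i => Finset.prod_pos fun i' _ => hq i'
  intro i
  induction i using WellFoundedLT.induction with
  | ind i ih =>
    intro hi
    by_cases h : (Sg g i).Nonempty
    · have hp' : g ((Sg g i).max' h) = g i ∧ (Sg g i).max' h < i := by
        have := (Sg g i).max'_mem h
        simpa only [Sg, Finset.mem_filter, Finset.mem_univ, true_and] using this
      set p := (Sg g i).max' h with hp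
      have ih' := ih p hp'.2 (hpe p i hp'.1 hi)
      obtain ⟨ha, hb⟩ := hab p i hp'.1
      rw [ha, hb] at ih'
      have hBi := hP i hi
      unfold Bin at hBi
      rw [dif_pos h, ← hp] at hBi
      rw [Dg_next g q h, ← hp]
      rw [← Ideal.Quotient.eq_zero_iff_mem] at ih' hBi ⊢
      simp only [map_sub, map_mul, map_pow, sub_eq_zero] at ih' hBi ⊢
      have hDp := hDpos p
      have hqi := hq i
      rw [pow_mul, hBi, mul_pow, ih', ← pow_mul, ← mul_assoc, ← pow_add]
      congr 2
      exact sub_helper _ _ hqi hDp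
    · rw [Dg_first g q h]
      have hBi := hP i hi
      unfold Bin at hBi
      rwa [dif_neg h] at hBi

lemma Bin_sg_mem' (pe : Fin r → Prop) (hpe : ∀ i i', g i = g i' → pe i' → pe i)
    (a b : Fin r → Fin (N + 1))
    (hq : ∀ i, 0 < q i) (hab : ∀ i i', g i = g i' → a i = a i' ∧ b i = b i')
    (P : Ideal (MvPolynomial (Fin (n + 1) ⊕ Fin r) k))
    (hP : ∀ i, pe i → aeval (sg k n N r) (Bin g q a b k i) ∈ P) (i : Fin r) (hi : pe i) :
    X (Sum.inr i) ^ (Dg g q i) - (LF (VL k n N) (a i)) ^ (Dg g q i - 1) * LF (VL k n N) (b i)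
      ∈ P := by
  have h := Bin_mem' g q pe hpe a b hq hab
    (P.comap (aeval (sg k n N r) : MvPolynomial (Fin (N + 1) ⊕ Fin r) k →ₐ[k] _))
    (fun i hi => by rw [Ideal.mem_comap]; exact hP i hi) i hi
  rw [Ideal.mem_comap] at h
  rw [map_sub, map_mul, map_pow, map_pow, aeval_X, aeval_X, aeval_X] at h
  exact h

end restr

theorem mixed_holds (hkap : GKappa) : GMixed := by
  classical
  intro n r d
  obtain ⟨K1, hcount, hroots, hindep⟩ := exists_countable_field
  set σ := (Σ i : Fin r, {μ : Fin (n + r + 1) →₀ ℕ // μ.degree = d i}) with hσ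
  have hcp : Countable (MvPolynomial σ K1) := by
    rw [← Cardinal.mk_le_aleph0_iff]
    refine MvPolynomial.cardinalMk_le_max.trans ?_
    simp only [max_le_iff, le_refl, and_true]
    exact ⟨Cardinal.mk_le_aleph0_iff.mpr hcount, Cardinal.mk_le_aleph0_iff.mpr inferInstance⟩
  have hne : Nonempty {p : MvPolynomial σ K1 // p ≠ 0} := ⟨⟨1, one_ne_zero⟩⟩
  obtain ⟨en, hen⟩ := exists_surjective_nat {p : MvPolynomial σ K1 // p ≠ 0}
  refine ⟨fun j => MvPolynomial.map K1.subtype (en j).1, fun j => ?_, ?_⟩
  · have h1 := (en j).2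
    intro h
    exact h1 ((map_eq_zero_iff _ (MvPolynomial.map_injective _ K1.subtype.injective)).mp h)
  intro f hfh hbad I hI hIp hdim hfI N p s k0 G g ga gb S hp hs hgr hbl hrob
  have hsk : s + k0 ≠ 0 := by omega
  have hq0 : 0 < p ^ (s + k0) := pow_pos hp.pos _
  have hQ2 : 2 ≤ p ^ (s + k0) := hp.two_le.trans (Nat.le_self_pow hsk p)
  have hind : AlgebraicIndependent K1 (fun x : σ => coeff x.2.1 (f x.1)) := by
    rw [algebraicIndependent_iff]
    intro p hp
    by_contra hp0
    obtain ⟨l, hl⟩ := hen ⟨p, hp0⟩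
    apply hbad l
    change MvPolynomial.eval _ (MvPolynomial.map K1.subtype (en l).1) = 0
    rw [hl, MvPolynomial.eval_map]
    exact hp
  -- the divisors
  choose qq hqq1 hqq2 using fun c : Fin G => exists_factor
    (Finset.univ.filter (fun i => g i = some c)) d (p ^ (s + k0)) (hgr c)
  let q : Fin r → ℕ := fun i => (g i).elim 1 (fun c => qq c i)
  have hqs : ∀ i c, g i = some c → q i = qq c i := by
    intro i c h
    simp only [q, h, Option.elim_some]
  have hqn : ∀ i, g i = none → q i = 1 := by
    intro i h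
    simp only [q, h, Option.elim_none]
  have hqd : ∀ i, q i ∣ d i := by
    intro i
    rcases hgi : g i with _ | c
    · rw [hqn i hgi]; exact one_dvd _
    · rw [hqs i c hgi]
      exact hqq1 c i (by simp [hgi])
  have hqprod : ∀ c, ∏ i ∈ Finset.univ.filter (fun i => g i = some c), q i = p ^ (s + k0) := by
    intro c
    rw [← hqq2 c]
    refine Finset.prod_congr rfl fun i hi => ?_
    simp only [Finset.mem_filter, Finset.mem_univ, true_and] at hi
    exact hqs i c hi
  have hqpos : ∀ i, 0 < q i := by
    intro i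
    rcases hgi : g i with _ | c
    · rw [hqn i hgi]; exact one_pos
    · have h1 : q i ∣ p ^ (s + k0) := by
        rw [← hqprod c]
        exact Finset.dvd_prod_of_mem q (by simp [hgi])
      exact Nat.pos_of_dvd_of_pos h1 hq0
  let a : Fin r → Fin (N + 1) := fun i => (g i).elim 0 ga
  let b : Fin r → Fin (N + 1) := fun i => (g i).elim 0 gb
  have hab : ∀ i i', g i = g i' → a i = a i' ∧ b i = b i' := by
    intro i i' h
    simp only [a, b, h, and_self]
  have hD : ∀ i, g i ≠ none → Dg g q i ∣ p ^ (s + k0) := by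
    intro i hi
    obtain ⟨c, hc⟩ := Option.ne_none_iff_exists'.mp hi
    rw [← hqprod c]
    apply Finset.prod_dvd_prod_of_subset
    intro i' hi'
    simp only [Finset.mem_filter, Finset.mem_univ, true_and] at hi' ⊢
    exact hi'.1.trans hc
  have hlast : ∀ c, ∃ i, g i = some c ∧ Dg g q i = p ^ (s + k0) := by
    intro c
    have hnon : (Finset.univ.filter (fun i => g i = some c)).Nonempty := by
      by_contra h
      rw [Finset.not_nonempty_iff_eq_empty] at h
      have := hqprod c
      rw [h, Finset.prod_empty] at this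
      omega
    set i := (Finset.univ.filter (fun i => g i = some c)).max' hnon with hi
    have hgi : g i = some c := by
      have := (Finset.univ.filter (fun i => g i = some c)).max'_mem hnon
      simpa only [Finset.mem_filter, Finset.mem_univ, true_and] using this
    refine ⟨i, hgi, ?_⟩
    rw [← hqprod c, Dg]
    congr 1
    ext i'
    simp only [Finset.mem_filter, Finset.mem_univ, true_and, hgi]
    constructor
    · exact fun h => h.1
    · intro h
      refine ⟨h, Finset.le_max' _ _ (by simpa using h)⟩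
  -- the blocks
  let S' : Fin r → Finset ℕ := fun i => (S i).map Fin.valEmbedding
  have hcardS : ∀ i, (S' i).card = (S i).card := fun i => Finset.card_map _
  have hSlt : ∀ i, ∀ x ∈ S' i, x < N + 1 := by
    intro i x hx
    obtain ⟨x', -, rfl⟩ := Finset.mem_map.mp hx
    exact x'.2
  let h0 : Fin r → ℕ := fun i => if h : (S i).Nonempty then (h.choose : Fin (N + 1)).1 else 0
  have hh0 : ∀ i, g i = none → h0 i ∈ S' i := by
    intro i hi
    have h := (hbl i hi).2.1
    simp only [h0, dif_pos h]
    exact Finset.mem_map_of_mem _ h.choose_spec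
  let e : Fin r → ℕ := fun i => d i / (p ^ (s + k0)) ^ ((S i).card - 1)
  have hde : ∀ i, g i = none → e i * (p ^ (s + k0)) ^ ((S i).card - 1) = d i := by
    intro i hi
    apply Nat.div_mul_cancel
    rw [← pow_mul]
    exact (hbl i hi).2.2.1
  have he : ∀ i, g i = none → 0 < e i := by
    intro i hi
    have h1 := (hbl i hi).1
    by_contra h2
    have h3 := hde i hi
    rw [Nat.eq_zero_of_not_pos h2, zero_mul] at h3
    omega
  obtain ⟨ω, hω⟩ := hroots (p ^ (s + k0)) hq0.ne'
  choose c hc using fun i : Fin r => hindep (IH N 0 (p ^ (s + k0)) (p ^ (s + k0) * e i) (S' i))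
  have hEE : ∀ i, g i = none → ∃ E : MvPolynomial (Fin (N + 1) ⊕ Fin r) K1,
      E.IsHomogeneous (d i) ∧
      ∀ (Ω : Type) [Field Ω] (θ : K1 →+* Ω) (x : Fin (N + 1) ⊕ Fin r → Ω) (yy : ℕ → Ω),
          (∀ (m : ℕ) (h : m < N + 1), x (Sum.inl ⟨m, h⟩) = yy m ^ (p ^ (s + k0))) →
          (∀ m, N + 1 ≤ m → yy m = 0) →
          eval₂ θ x E = ∏ l : {b // b ∈ (S' i).erase (h0 i)} → Fin (p ^ (s + k0)),
            (x (Sum.inr i) ^ e i - ∑ o, θ (c i o * ω ^ (∑ b, (l b : ℕ) * bd 0 (mE o) b.1)) *
              ∏ m ∈ Finset.range (N + 1), yy m ^ mE o m) := by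
    intro i hi
    obtain ⟨E, hE1, hE2⟩ := exists_E2 (k := K1) (n := N) (β := Fin r) (J := 0) (u := N + 1)
      (e := e i) hQ2 (by omega) ω hω (fun _ => i) i
      (fun o : IH N 0 (p ^ (s + k0)) (p ^ (s + k0) * e i) (S' i) => mE o) (c i)
      (fun b : {b // b ∈ (S' i).erase (h0 i)} => b.1) (h0 i)
      (by have := hSlt i _ (hh0 i hi); omega)
      (by
        intro o b' _ hb'
        have h1 := cov_mE o b' hb'
        by_cases h2 : b' = h0 i
        · exact Or.inl h2
        · exact Or.inr ⟨⟨b', Finset.mem_erase.mpr ⟨h2, h1⟩⟩, rfl⟩)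
      (fun o => sum_mE o) (fun o j hj => pair_mE o j hj)
    refine ⟨E, ?_, ?_⟩
    · rw [Fintype.card_coe, Finset.card_erase_of_mem (hh0 i hi), hcardS, hde i hi] at hE1
      exact hE1
    · intro Ω _ θ x yy h1 h2
      exact hE2 Ω θ x yy ⟨h1, h2, fun j hj => absurd hj (by omega)⟩
  choose E hE1 hE2 using hEE
  let NN : Fin r → MvPolynomial (Fin (N + 1) ⊕ Fin r) K1 := fun i =>
    if h : g i = none then E i h else (Bin g q a b K1 i) ^ (d i / q i)
  have hNN : ∀ i, (NN i).IsHomogeneous (d i) := by
    intro i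
    by_cases h : g i = none
    · simp only [NN, dif_pos h]
      exact hE1 i h
    · simp only [NN, dif_neg h]
      have h1 := (Bin_hom (k := K1) g q a b hqpos i).pow (d i / q i)
      rwa [Nat.mul_div_cancel' (hqd i)] at h1
  let ε := idx n r
  let f0 : Fin r → MvPolynomial (Fin (n + r + 1)) K1 := fun i =>
    rename ε.symm (aeval (sg K1 n N r) (NN i))
  have hNe : ∀ i, (aeval (sg K1 n N r) (NN i)).IsHomogeneous (d i) := by
    intro i
    have h0 := (hNN i).aeval (sg K1 n N r) (fun x => sg_hom K1 x)
    rwa [one_mul] at h0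
  obtain ⟨B, φ1, hB⟩ := specialise d K1 f hfh hind f0
    (fun i => IsHomogeneous.rename_isHomogeneous (hNe i))
  have hBI := hB I hfI
  have hredh := red_hom B (I := I) hI
  obtain ⟨C, hC⟩ := growth2 I hI hdim.le
  have hchar : CharZero (IsLocalRing.ResidueField B) := charZero_of_injective_ringHom φ1.injective
  have hmem : ∀ i, aeval (sg (IsLocalRing.ResidueField B) n N r) (MvPolynomial.map φ1 (NN i)) ∈
      (red B I).comap (rename ε.symm : MvPolynomial (Fin (n + 1) ⊕ Fin r)
      (IsLocalRing.ResidueField B) →ₐ[IsLocalRing.ResidueField B] _) := by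
    intro i
    rw [Ideal.mem_comap]
    have h2 := hBI i
    simp only [f0] at h2
    rw [MvPolynomial.map_rename, aeval_sg_map] at h2
    exact h2
  have hdp := div_of_prime (p ^ s) (1 : ℤ) ((red B I).comap
    (rename ε.symm : MvPolynomial (Fin (n + 1) ⊕ Fin r)
      (IsLocalRing.ResidueField B) →ₐ[IsLocalRing.ResidueField B] _)) (by
      intro P hP hPp hJP hPgr
      obtain ⟨K, hK⟩ := hkap (IsLocalRing.ResidueField B) n N r s k0 p hp hs (φ1 ω)
        (hω.map_of_injective φ1.injective) (fun i => g i ≠ none) a b (Dg g q) hD S' h0 e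
        (by
          intro i hi
          have hi' : g i = none := not_not.mp hi
          exact ⟨hSlt i, by rw [hcardS]; exact (hbl i hi').2.2.2, he i hi'⟩)
        (fun i o => φ1 (c i o))
        (fun i _ => by
          have := (hc i).map' (f := φ1.toRatAlgHom) φ1.injective
          exact this)
        (by
          intro K hK
          obtain ⟨T, h1, h2, h3⟩ := hrob K hK
          refine ⟨T, h1, h2, fun U hU hUn => ?_⟩
          obtain ⟨x, hx, y, hy, hxy⟩ := h3 U hU hUn
          refine ⟨x, hx, y, hy, ?_⟩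
          rcases hxy with ⟨c', hc'⟩ | ⟨i, hi, hix, hiy⟩
          · left
            obtain ⟨i, hi, hDi⟩ := hlast c'
            refine ⟨i, by rw [hi]; exact Option.some_ne_none c', hDi, ?_⟩
            simp only [a, b, hi, Option.elim_some]
            exact hc'
          · right
            exact ⟨i, not_not.mpr hi, Finset.mem_map_of_mem Fin.valEmbedding hix,
              Finset.mem_map_of_mem Fin.valEmbedding hiy⟩)
        P hP hPp hPgr
        (by
          intro i hi
          refine Bin_sg_mem' g q (fun i => g i ≠ none) (fun i i' h h' => by rw [h]; exact h')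
            a b hqpos hab P (fun i hi => ?_) i hi
          have h1 := hJP (hmem i)
          simp only [NN, dif_neg hi] at h1
          rw [map_pow, map_pow, Bin_map] at h1
          exact hPp.mem_of_pow_mem _ h1)
        (by
          intro i hi
          have hi' : g i = none := not_not.mp hi
          refine ⟨MvPolynomial.map φ1 (E i hi'), ?_, ?_⟩
          · have h1 := hJP (hmem i)
            simp only [NN, dif_pos hi'] at h1
            exact h1
          · intro Ω _ θ x yy h1 h2
            rw [eval₂_map, hE2 i hi' Ω (θ.comp φ1) x yy h1 h2]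
            refine Finset.prod_congr rfl fun l _ => ?_
            congr 1
            refine Finset.sum_congr rfl fun o _ => ?_
            rw [RingHom.comp_apply, map_mul, map_pow])
      exact ⟨K, fun t ht => by simpa using hK t ht⟩)
    _ (hom_equiv ε hredh) le_rfl ⟨C, fun t => by rw [hf_equiv, red_hf B hI]; exact hC t⟩
  obtain ⟨K, hK⟩ := hdp
  refine ⟨K, fun k hk => ?_⟩
  have h1 := hK k hk
  rw [one_mul, hf_equiv, hf_equiv, red_hf B hI, red_hf B hI] at h1
  exact h1

end Pool.Agent.Z894.LX
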