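import Mathlib
import Pool.Agent.Z894.LX.Mixed
import Pool.Agent.Y686.LX.Ratios
import Pool.Agent.Y484.LX.Merge
import Pool.Agent.Y592.LX.GInt
import Pool.Agent.Y170.LX.Fin
import Pool.Agent.Y708.LX.Kappa
import Pool.Agent.Y240.LX.Place
import Pool.Agent.Y641.LX.Group
import Pool.Agent.Y641.LX.Walk
import Pool.Agent.Y87.LX.Fin10

set_option autoImplicit false

namespace Pool.Agent.Z894.LX


theorem final : GFinal :=
  Pool.Agent.Y87.LX.final_holds
    (mixed_holds (Pool.Agent.Y708.LX.kappa_holds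
      (Pool.Agent.Y484.LX.merge_holds Pool.Agent.Y686.LX.ratios_holds)
      Pool.Agent.Y592.LX.int_holds Pool.Agent.Y170.LX.fin_holds))
    Pool.Agent.Y240.LX.place_holds Pool.Agent.Y641.LX.group_holds

end Pool.Agent.Z894.LX
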